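import Pool.Agent.Helper922.HB.Defs
import Pool.Agent.N152.Fin

/-!
MP_ed9921_ag, Q1: negative answer. There is a closed connected complex submanifold `X` of
`ℂ × ℙ^N` of dimension three (so `X` is normal and equals its normalization) whose projection to
`ℂ` is a `ℤ`-homology fibre bundle, has connected fibres, is a submersion over `ℂ ∖ {0}` (so the
fibres there are smooth projective surfaces), but is not smooth.

The fibres over `s ≠ 0` are bielliptic surfaces `(E' × E_s) / μ_6`, `E_s : z² + t³ = s`; the fibre
over `0` is a bundle of cuspidal cubics over an elliptic curve.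
-/

set_option autoImplicit false

open scoped LinearAlgebra.Projectivization

namespace Pool.Agent.Results.MP_ed9921_ag.HomologyBundleNotSmooth

open Pool.Agent.Helper922.HB

theorem result : ∃ (ι : Type) (_ : Fintype ι) (X : Set (ℂ × ℙ ℂ (ι → ℂ))),
    IsClosedSubmanifold 3 X ∧ IsConnected X ∧
    (∀ s : ℂ, IsConnected {p | p ∈ X ∧ p.1 = s}) ∧
    (∀ p ∈ X, p.1 ≠ 0 → ProjSubmersiveAt 3 X p) ∧
    IsZHomologyFiberBundle (fun p : X => p.1.1) ∧
    ∃ p ∈ X, p.1 = 0 ∧ ¬ ProjSubmersiveAt 3 X p :=
  Pool.Agent.N152.main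

end Pool.Agent.Results.MP_ed9921_ag.HomologyBundleNotSmooth
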